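import Pool.Agent.Helper45.SP.GoalsF

open Complex Metric Set Filter Topology
open scoped ContDiff ComplexConjugate

namespace Pool.Agent.Helper69.SP

open Pool.Agent.Helper95.Lin Pool.Agent.Helper10.SP Pool.Agent.Helper45.SP

/-- A smaller concentric ball is contained in a ball of smaller radius around another centre. -/
lemma shrink {b : ℕ} {z₀ x : Cn b} {r ρ₀ : ℝ} (h0 : 0 < ρ₀) (hsub : ball x ρ₀ ⊆ ball z₀ r) :
    ∃ M < r, closedBall x (ρ₀ / 2) ⊆ closedBall z₀ M := by
  have hc : IsCompact (closedBall x (ρ₀ / 2)) := isCompact_closedBall x (ρ₀ / 2)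
  have hne : (closedBall x (ρ₀ / 2)).Nonempty := ⟨x, mem_closedBall_self (by linarith)⟩
  obtain ⟨y, hy, hmax⟩ := hc.exists_isMaxOn hne
    (f := fun w => dist w z₀) (by fun_prop)
  refine ⟨dist y z₀, ?_, ?_⟩
  · have : y ∈ ball x ρ₀ := by
      rw [mem_ball]; rw [mem_closedBall] at hy; linarith
    exact mem_ball.mp (hsub this)
  · intro w hw
    exact mem_closedBall.mpr (hmax hw)

theorem LNCMP (hL : S_LCMP') : S_LNCMP := by
  intro b z₀ r A hA x ρ₀ hρ₀ hsub ρ hρ
  obtain ⟨M, hM, hMsub⟩ := shrink hρ₀ hsub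
  have hsub' : ball x (ρ₀ / 2) ⊆ ball z₀ r :=
    (ball_subset_ball (by linarith)).trans hsub
  obtain ⟨C, η, hC, hη, hcmp⟩ := hL hA x (ρ₀ / 2) (by linarith) hsub' ρ hρ
  refine ⟨C, hC, ?_⟩
  intro V hV s hs z hz
  have hs0 : 0 ≤ s := (norm_nonneg _).trans (hs x (mem_ball_self hρ₀))
  set ρ₁ : ℝ := (max ρ M + r) / 2 with hρ₁
  have hmax : max ρ M < r := max_lt hρ hM
  have h1 : ρ₁ < r := by rw [hρ₁]; linarith
  have h2 : ρ < ρ₁ := by
    have := le_max_left ρ M
    rw [hρ₁]; linarith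
  have h3 : M < ρ₁ := by
    have := le_max_right ρ M
    rw [hρ₁]; linarith
  have key : ∀ ε > 0, ‖V z‖ ≤ C * (s + ε) + ε := by
    intro ε hε
    obtain ⟨σ₀, hσ₀, hσ⟩ := hV.2.2 ρ₁ h1 ε hε
    have hse : 0 < s + ε := by linarith
    set σ : ℝ := min (σ₀ / 2) (η / (s + ε)) with hσd
    have hσpos : 0 < σ := lt_min (by linarith) (div_pos hη hse)
    have hσlt : σ < σ₀ := lt_of_le_of_lt (min_le_left _ _) (by linarith)
    have hση : (s + ε) * σ ≤ η := by
      have : σ ≤ η / (s + ε) := min_le_right _ _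
      rw [le_div_iff₀ hse] at this
      linarith [mul_comm σ (s + ε)]
    obtain ⟨t, htA, ht⟩ := hσ σ hσpos hσlt
    have hnear : Near x (ρ₀ / 2) t.g ((s + ε) * σ) := by
      intro w hw
      have hw1 : w ∈ ball z₀ ρ₁ := by
        have := hMsub (ball_subset_closedBall hw)
        rw [mem_closedBall] at this
        rw [mem_ball]; linarith
      have hw2 : w ∈ ball x ρ₀ := ball_subset_ball (by linarith) hw
      have e1 := ht w hw1
      have e2 : ‖σ • V w‖ ≤ σ * s := by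
        rw [norm_smul, Real.norm_of_nonneg hσpos.le]
        exact mul_le_mul_of_nonneg_left (hs w hw2) hσpos.le
      have e3 : t.g w - w = (t.g w - w - σ • V w) + σ • V w := by abel
      calc ‖t.g w - w‖ = ‖(t.g w - w - σ • V w) + σ • V w‖ := by rw [← e3]
        _ ≤ ‖t.g w - w - σ • V w‖ + ‖σ • V w‖ := norm_add_le _ _
        _ ≤ ε * σ + σ * s := add_le_add e1 e2
        _ = (s + ε) * σ := by ring
    have hn := hcmp t htA _ hση hnear z hz
    have hz1 : z ∈ ball z₀ ρ₁ := ball_subset_ball h2.le hz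
    have e1 := ht z hz1
    have e2 : σ * ‖V z‖ = ‖σ • V z‖ := by
      rw [norm_smul, Real.norm_of_nonneg hσpos.le]
    have e3 : ‖σ • V z‖ ≤ ‖t.g z - z‖ + ‖t.g z - z - σ • V z‖ := by
      have : σ • V z = (t.g z - z) - (t.g z - z - σ • V z) := by abel
      calc ‖σ • V z‖ = ‖(t.g z - z) - (t.g z - z - σ • V z)‖ := by rw [← this]
        _ ≤ _ := norm_sub_le _ _
    have e4 : σ * ‖V z‖ ≤ σ * (C * (s + ε) + ε) := by
      rw [e2]
      calc ‖σ • V z‖ ≤ ‖t.g z - z‖ + ‖t.g z - z - σ • V z‖ := e3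
        _ ≤ C * ((s + ε) * σ) + ε * σ := add_le_add hn e1
        _ = σ * (C * (s + ε) + ε) := by ring
    exact le_of_mul_le_mul_left e4 hσpos
  refine le_of_forall_pos_le_add ?_
  intro δ hδ
  have hC1 : 0 < C + 1 := by linarith
  have := key (δ / (C + 1)) (div_pos hδ hC1)
  have e : C * (s + δ / (C + 1)) + δ / (C + 1) = C * s + δ := by
    field_simp
    ring
  linarith

end Pool.Agent.Helper69.SP
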