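import Pool.Agent.Helper69.SP.Straight

/-!
The Archimedean spiral and its crossings with the negative axis.
-/

set_option autoImplicit false

open Set Filter Topology

namespace Pool.Agent.Helper69.SP

/-- The Euclidean length. -/
noncomputable def rr (q : ℝ × ℝ) : ℝ := √(q.1 ^ 2 + q.2 ^ 2)

/-- The Archimedean spiral. -/
noncomputable def sp (s : ℝ) : ℝ × ℝ := (s * Real.cos (2 * Real.pi * s), s * Real.sin (2 * Real.pi * s))

/-- The points of the spiral with parameter between `1` and `n + 1`. -/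
def Sp (n : ℕ) : Set (ℝ × ℝ) := {q | 1 ≤ rr q ∧ rr q ≤ n + 1 ∧ q = sp (rr q)}

/-- The `i`-th segment on the negative axis. -/
def Seg (i : ℕ) : Set (ℝ × ℝ) := {q | q.2 = 0 ∧ -((i : ℝ) + 2) ≤ q.1 ∧ q.1 ≤ -((i : ℝ) + 1)}

theorem rr_nonneg (q : ℝ × ℝ) : 0 ≤ rr q := Real.sqrt_nonneg _

theorem rr_sp {s : ℝ} (hs : 0 ≤ s) : rr (sp s) = s := by
  unfold rr sp
  have : (s * Real.cos (2 * Real.pi * s)) ^ 2 + (s * Real.sin (2 * Real.pi * s)) ^ 2 = s ^ 2 := by
    have := Real.cos_sq_add_sin_sq (2 * Real.pi * s)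
    linear_combination s ^ 2 * this
  simp only [this]
  exact Real.sqrt_sq hs

theorem sp_mem {n : ℕ} {s : ℝ} (h1 : 1 ≤ s) (h2 : s ≤ n + 1) : sp s ∈ Sp n := by
  have h : rr (sp s) = s := rr_sp (by linarith)
  exact ⟨by rw [h]; exact h1, by rw [h]; exact h2, by rw [h]⟩

theorem rr_continuous : Continuous rr := by
  unfold rr
  fun_prop

theorem rr_neg {x : ℝ} (hx : 0 ≤ x) : rr (-x, 0) = x := by
  unfold rr
  simp only [ne_eq, OfNat.ofNat_ne_zero, not_false_eq_true, zero_pow, add_zero]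
  rw [Real.sqrt_sq_eq_abs, abs_neg, abs_of_nonneg hx]

/-- A point of the negative axis on the spiral has half-integral length. -/
theorem half_of_mem {n : ℕ} {x : ℝ} (hx : 0 < x) (h : (-x, (0 : ℝ)) ∈ Sp n) :
    ∃ k : ℤ, x = k + 1 / 2 := by
  obtain ⟨h1, h2, h3⟩ := h
  rw [rr_neg hx.le] at h3
  have h4 : -x = x * Real.cos (2 * Real.pi * x) := congrArg Prod.fst h3
  have h5 : Real.cos (2 * Real.pi * x) = -1 := by
    have : x * (Real.cos (2 * Real.pi * x) + 1) = 0 := by linarith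
    rcases mul_eq_zero.mp this with h6 | h6
    · linarith
    · linarith
  have h6 : Real.cos (2 * Real.pi * x - Real.pi) = 1 := by
    rw [Real.cos_sub_pi, h5, neg_neg]
  obtain ⟨k, hk⟩ := (Real.cos_eq_one_iff _).mp h6
  refine ⟨k, ?_⟩
  have hpi := Real.pi_pos
  have : (2 * Real.pi) * (x - (k + 1 / 2)) = 0 := by linarith
  rcases mul_eq_zero.mp this with h7 | h7
  · linarith
  · linarith

theorem cos_half (k : ℤ) : Real.cos (2 * Real.pi * (k + 1 / 2)) = -1 := by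
  have : 2 * Real.pi * ((k : ℝ) + 1 / 2) = Real.pi + k * (2 * Real.pi) := by ring
  rw [this, Real.cos_add_int_mul_two_pi, Real.cos_pi]

theorem sin_half (k : ℤ) : Real.sin (2 * Real.pi * (k + 1 / 2)) = 0 := by
  have : 2 * Real.pi * ((k : ℝ) + 1 / 2) = Real.pi + k * (2 * Real.pi) := by ring
  rw [this, Real.sin_add_int_mul_two_pi, Real.sin_pi]

theorem half_mem {n : ℕ} {k : ℤ} (h1 : (1 : ℝ) ≤ k + 1 / 2) (h2 : (k : ℝ) + 1 / 2 ≤ n + 1) :
    (-((k : ℝ) + 1 / 2), (0 : ℝ)) ∈ Sp n := by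
  have h0 : (0 : ℝ) ≤ k + 1 / 2 := by linarith
  refine ⟨?_, ?_, ?_⟩
  · rw [rr_neg h0]; exact h1
  · rw [rr_neg h0]; exact h2
  · rw [rr_neg h0]
    unfold sp
    rw [cos_half, sin_half]
    simp

/-- The linear map `(a, b) ↦ (b, K a - b)`. -/
noncomputable def lin (K : ℝ) (hK : K ≠ 0) : (ℝ × ℝ) ≃L[ℝ] (ℝ × ℝ) :=
  ContinuousLinearEquiv.equivOfInverse
    ((ContinuousLinearMap.snd ℝ ℝ ℝ).prod
      (K • ContinuousLinearMap.fst ℝ ℝ ℝ - ContinuousLinearMap.snd ℝ ℝ ℝ))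
    ((K⁻¹ • (ContinuousLinearMap.snd ℝ ℝ ℝ + ContinuousLinearMap.fst ℝ ℝ ℝ)).prod
      (ContinuousLinearMap.fst ℝ ℝ ℝ))
    (by
      intro x
      ext
      · simp
        field_simp
        ring
      · simp)
    (by
      intro x
      ext
      · simp
      · simp
        field_simp
        ring)

/-- The straightening map. -/
noncomputable def ff (q : ℝ × ℝ) : ℝ × ℝ :=
  (q.2, q.2 * Real.cos (2 * Real.pi * rr q) - q.1 * Real.sin (2 * Real.pi * rr q))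

theorem ff_deriv {ρ : ℝ} (hρ : 0 < ρ) (hc : Real.cos (2 * Real.pi * ρ) = -1)
    (hs : Real.sin (2 * Real.pi * ρ) = 0) (hK : 2 * Real.pi * ρ ≠ 0) :
    HasStrictFDerivAt ff (lin (2 * Real.pi * ρ) hK : (ℝ × ℝ) →L[ℝ] (ℝ × ℝ)) (-ρ, 0) := by
  have hr : rr (-ρ, 0) = ρ := rr_neg hρ.le
  have h1 : HasStrictFDerivAt (fun q : ℝ × ℝ => q.1) (ContinuousLinearMap.fst ℝ ℝ ℝ) (-ρ, 0) :=
    hasStrictFDerivAt_fst
  have h2 : HasStrictFDerivAt (fun q : ℝ × ℝ => q.2) (ContinuousLinearMap.snd ℝ ℝ ℝ) (-ρ, 0) :=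
    hasStrictFDerivAt_snd
  have h3 : HasStrictFDerivAt rr (-(ContinuousLinearMap.fst ℝ ℝ ℝ)) (-ρ, 0) := by
    have h4 : HasStrictFDerivAt (fun y : ℝ × ℝ => √(y.1 ^ 2 + y.2 ^ 2)) _ (-ρ, 0) :=
      ((h1.pow 2).add (h2.pow 2)).sqrt (by simp; positivity)
    refine HasStrictFDerivAt.congr_fderiv h4 ?_
    ext
    · simp
      rw [Real.sqrt_sq hρ.le]
      field_simp
    · simp
  have h5 : HasStrictFDerivAt (fun y => 2 * Real.pi * rr y) _ (-ρ, 0) :=
    (h3.const_mul (2 * Real.pi))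
  have h6 : HasStrictFDerivAt (fun y => Real.cos (2 * Real.pi * rr y)) _ (-ρ, 0) := h5.cos
  have h7 : HasStrictFDerivAt (fun y => Real.sin (2 * Real.pi * rr y)) _ (-ρ, 0) := h5.sin
  have h8 : HasStrictFDerivAt (fun q : ℝ × ℝ => q.2 * Real.cos (2 * Real.pi * rr q)) _ (-ρ, 0) :=
    h2.mul h6
  have h9 : HasStrictFDerivAt (fun q : ℝ × ℝ => q.1 * Real.sin (2 * Real.pi * rr q)) _ (-ρ, 0) :=
    h1.mul h7
  have h10 : HasStrictFDerivAt (fun q : ℝ × ℝ => q.2 * Real.cos (2 * Real.pi * rr q) -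
      q.1 * Real.sin (2 * Real.pi * rr q)) _ (-ρ, 0) := h8.sub h9
  have h11 : HasStrictFDerivAt ff _ (-ρ, 0) := h2.prodMk h10
  refine HasStrictFDerivAt.congr_fderiv h11 ?_
  ext
  · simp [lin]
  · simp [lin, hr, hc, hs]
    ring
  · simp [lin]
  · simp [lin, hr, hc, hs]

/-- Near a crossing point the spiral is given by the vanishing of the second coordinate. -/
theorem sp_iff {n : ℕ} {ρ : ℝ} (h1 : 1 < ρ) (h2 : ρ < n + 1)
    (hc : Real.cos (2 * Real.pi * ρ) = -1) (hs : Real.sin (2 * Real.pi * ρ) = 0) :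
    ∀ᶠ q in 𝓝 ((-ρ, 0) : ℝ × ℝ), (q ∈ Sp n ↔ (ff q).2 = 0) := by
  have hρ : 0 < ρ := by linarith
  have hr : rr (-ρ, 0) = ρ := rr_neg hρ.le
  have e1 : ∀ᶠ q in 𝓝 ((-ρ, 0) : ℝ × ℝ), 1 < rr q := by
    apply rr_continuous.continuousAt.eventually_const_lt
    rw [hr]; exact h1
  have e2 : ∀ᶠ q in 𝓝 ((-ρ, 0) : ℝ × ℝ), rr q < n + 1 := by
    apply rr_continuous.continuousAt.eventually_lt_const
    rw [hr]; exact h2
  have e3 : ∀ᶠ q in 𝓝 ((-ρ, 0) : ℝ × ℝ),
      0 < q.1 * Real.cos (2 * Real.pi * rr q) + q.2 * Real.sin (2 * Real.pi * rr q) := by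
    have hcont : Continuous (fun q : ℝ × ℝ =>
        q.1 * Real.cos (2 * Real.pi * rr q) + q.2 * Real.sin (2 * Real.pi * rr q)) := by
      have := rr_continuous
      fun_prop
    apply hcont.continuousAt.eventually_const_lt
    simp only [hr, hc, hs]
    linarith
  filter_upwards [e1, e2, e3] with q f1 f2 f3
  have hcs := Real.cos_sq_add_sin_sq (2 * Real.pi * rr q)
  have hrsq : rr q ^ 2 = q.1 ^ 2 + q.2 ^ 2 := by
    unfold rr
    exact Real.sq_sqrt (by positivity)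
  constructor
  · rintro ⟨_, _, h⟩
    have g1 : q.1 = rr q * Real.cos (2 * Real.pi * rr q) := congrArg Prod.fst h
    have g2 : q.2 = rr q * Real.sin (2 * Real.pi * rr q) := congrArg Prod.snd h
    unfold ff
    simp only
    generalize Real.cos (2 * Real.pi * rr q) = c at *
    generalize Real.sin (2 * Real.pi * rr q) = d at *
    rw [g1, g2]
    ring
  · intro h
    have h' : q.2 * Real.cos (2 * Real.pi * rr q) - q.1 * Real.sin (2 * Real.pi * rr q) = 0 := h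
    refine ⟨f1.le, f2.le, ?_⟩
    unfold sp
    set c := Real.cos (2 * Real.pi * rr q) with hcdef
    set d := Real.sin (2 * Real.pi * rr q) with hddef
    set w := q.1 * c + q.2 * d with hw
    have k1 : q.1 = w * c := by
      rw [hw]
      linear_combination (-q.1) * hcs - d * h'
    have k2 : q.2 = w * d := by
      rw [hw]
      linear_combination (-q.2) * hcs + c * h'
    have k3 : w = rr q := by
      have : w ^ 2 = rr q ^ 2 := by
        rw [hrsq, k1, k2]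
        linear_combination (-w ^ 2) * hcs
      exact (pow_left_inj₀ f3.le (rr_nonneg q) two_ne_zero).mp this
    ext
    · simp only
      rw [k1, k3]
    · simp only
      rw [k2, k3]

/-- Near an interior point of a segment it is given by the vanishing of the first coordinate. -/
theorem seg_iff {i : ℕ} {ρ : ℝ} (h1 : (i : ℝ) + 1 < ρ) (h2 : ρ < i + 2) :
    ∀ᶠ q in 𝓝 ((-ρ, 0) : ℝ × ℝ), (q ∈ Seg i ↔ (ff q).1 = 0) := by
  have e1 : ∀ᶠ q in 𝓝 ((-ρ, 0) : ℝ × ℝ), q.1 < -((i : ℝ) + 1) := by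
    apply continuous_fst.continuousAt.eventually_lt_const
    simp only
    linarith
  have e2 : ∀ᶠ q in 𝓝 ((-ρ, 0) : ℝ × ℝ), -((i : ℝ) + 2) < q.1 := by
    apply continuous_fst.continuousAt.eventually_const_lt
    simp only
    linarith
  filter_upwards [e1, e2] with q f1 f2
  unfold Seg ff
  constructor
  · rintro ⟨h, _, _⟩
    exact h
  · intro h
    exact ⟨h, f2.le, f1.le⟩

theorem crossing_local {n i : ℕ} (hi : i < n) :
    ∃ φ : (ℝ × ℝ) ≃ₜ (ℝ × ℝ), φ (-((i : ℝ) + 3 / 2), 0) = 0 ∧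
      ∀ q, ‖φ q‖ < 1 → ((q ∈ Sp n ↔ (φ q).2 = 0) ∧ (q ∈ Seg i ↔ (φ q).1 = 0)) := by
  have hρ : (0 : ℝ) < (i : ℝ) + 3 / 2 := by positivity
  have e : ((i : ℝ) + 3 / 2) = (((i : ℤ) + 1 : ℤ) : ℝ) + 1 / 2 := by push_cast; ring
  have hc : Real.cos (2 * Real.pi * ((i : ℝ) + 3 / 2)) = -1 := by
    rw [e]; exact cos_half _
  have hs : Real.sin (2 * Real.pi * ((i : ℝ) + 3 / 2)) = 0 := by
    rw [e]; exact sin_half _
  have hin : (i : ℝ) + 1 ≤ n := by exact_mod_cast hi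
  have hi0 : (0 : ℝ) ≤ i := Nat.cast_nonneg i
  refine exists_straight (ff_deriv hρ hc hs (by positivity)) ?_ (Sp n) (Seg i)
    (sp_iff (by linarith) (by linarith) hc hs) (seg_iff (by linarith) (by linarith))
  unfold ff
  rw [rr_neg hρ.le, hs]
  simp

theorem crossing_local' {n i : ℕ} (hi : i < n) :
    ∃ φ : (ℝ × ℝ) ≃ₜ (ℝ × ℝ), φ (-((i : ℝ) + 3 / 2), 0) = 0 ∧
      ∀ q, ‖φ q‖ < 1 → ((q ∈ Seg i ↔ (φ q).2 = 0) ∧ (q ∈ Sp n ↔ (φ q).1 = 0)) := by
  obtain ⟨φ, h1, h2⟩ := crossing_local hi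
  refine ⟨φ.trans (Homeomorph.prodComm ℝ ℝ), ?_, ?_⟩
  · rw [Homeomorph.trans_apply, h1]
    rfl
  · intro q hq
    have hq' : ‖φ q‖ < 1 := by
      simp only [Homeomorph.trans_apply, Homeomorph.coe_prodComm, Prod.norm_def, Prod.fst_swap,
        Prod.snd_swap] at hq ⊢
      rwa [max_comm]
    exact ⟨(h2 q hq').2, (h2 q hq').1⟩

end Pool.Agent.Helper69.SP
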