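import Mathlib

/-!
A pair of curves that crosses transversally can be straightened by a homeomorphism of the plane.
-/

set_option autoImplicit false

open Set Filter Topology

namespace Pool.Agent.Helper69.SP

theorem exists_straight {f : ℝ × ℝ → ℝ × ℝ} {f' : (ℝ × ℝ) ≃L[ℝ] (ℝ × ℝ)} {p : ℝ × ℝ}
    (hf : HasStrictFDerivAt f (f' : (ℝ × ℝ) →L[ℝ] (ℝ × ℝ)) p) (h0 : f p = 0)
    (A B : Set (ℝ × ℝ)) (hA : ∀ᶠ q in 𝓝 p, (q ∈ A ↔ (f q).2 = 0))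
    (hB : ∀ᶠ q in 𝓝 p, (q ∈ B ↔ (f q).1 = 0)) :
    ∃ φ : (ℝ × ℝ) ≃ₜ (ℝ × ℝ), φ p = 0 ∧
      ∀ q, ‖φ q‖ < 1 → ((q ∈ A ↔ (φ q).2 = 0) ∧ (q ∈ B ↔ (φ q).1 = 0)) := by
  obtain ⟨s, hs, c, hc, happ⟩ : ∃ s ∈ 𝓝 p, ∃ c : NNReal,
      lipschitzExtensionConstant (ℝ × ℝ) * c <
        ‖(f'.symm : (ℝ × ℝ) →L[ℝ] (ℝ × ℝ))‖₊⁻¹ ∧
      ApproximatesLinearOn f (f' : (ℝ × ℝ) →L[ℝ] (ℝ × ℝ)) s c := by
    have hL := lipschitzExtensionConstant_pos (ℝ × ℝ)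
    have hn : 0 < ‖(f'.symm : (ℝ × ℝ) →L[ℝ] (ℝ × ℝ))‖₊⁻¹ := by
      rw [inv_pos]
      have := f'.nnnorm_symm_pos
      exact this
    set L := lipschitzExtensionConstant (ℝ × ℝ) with hLdef
    set N := ‖(f'.symm : (ℝ × ℝ) →L[ℝ] (ℝ × ℝ))‖₊⁻¹ with hNdef
    have hcpos : 0 < N / (2 * L) := by positivity
    obtain ⟨s, hs, happ⟩ := hf.approximates_deriv_on_nhds (Or.inr hcpos)
    refine ⟨s, hs, N / (2 * L), ?_, happ⟩
    have : L * (N / (2 * L)) = N / 2 := by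
      field_simp
    rw [this]
    exact NNReal.half_lt_self hn.ne'
  obtain ⟨g, hg⟩ := happ.exists_homeomorph_extension (Or.inr hc)
  have hgp : g p = 0 := by
    rw [← hg (mem_of_mem_nhds hs), h0]
  have hU : {q | (q ∈ A ↔ (f q).2 = 0) ∧ (q ∈ B ↔ (f q).1 = 0) ∧ q ∈ s} ∈ 𝓝 p := by
    filter_upwards [hA, hB, hs] with q h1 h2 h3 using ⟨h1, h2, h3⟩
  have hU' : g.symm ⁻¹' {q | (q ∈ A ↔ (f q).2 = 0) ∧ (q ∈ B ↔ (f q).1 = 0) ∧ q ∈ s} ∈ 𝓝 0 := by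
    apply g.symm.continuous.continuousAt.preimage_mem_nhds
    have : g.symm 0 = p := by rw [← hgp]; exact g.symm_apply_apply p
    rw [this]
    exact hU
  obtain ⟨ε, hε, hball⟩ := Metric.mem_nhds_iff.mp hU'
  refine ⟨g.trans (Homeomorph.smulOfNeZero ε⁻¹ (inv_ne_zero hε.ne')), ?_, ?_⟩
  · simp [hgp]
  · intro q hq
    have hq' : ‖g q‖ < ε := by
      have h1 : ‖ε⁻¹ • g q‖ < 1 := hq
      rw [norm_smul, norm_inv, Real.norm_of_nonneg hε.le, inv_mul_lt_iff₀ hε, mul_one] at h1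
      exact h1
    have h2 : g q ∈ Metric.ball (0 : ℝ × ℝ) ε := by
      rw [mem_ball_zero_iff]
      exact hq'
    have h3 := hball h2
    simp only [mem_preimage, Homeomorph.symm_apply_apply, Set.mem_ofPred_eq] at h3
    obtain ⟨h4, h5, h6⟩ := h3
    have h7 : f q = g q := hg h6
    have h8 : (g.trans (Homeomorph.smulOfNeZero ε⁻¹ (inv_ne_zero hε.ne'))) q = ε⁻¹ • g q := rfl
    rw [h8, h4, h5, h7]
    simp [hε.ne']

end Pool.Agent.Helper69.SP
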